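import Pool.Agent.Lib.MP_e1f7e2_al.FA.Iface2
import Pool.Agent.Lib.MP_e1f7e2_al.FA.H47.Gr

/-!
# Module LW: leading words
-/

set_option autoImplicit false
set_option linter.all false

open MulOpposite

namespace Pool.Agent.Lib.MP_e1f7e2_al.FA.H30

open H47.Gr

variable {K : Type*} [Field K] {n : ℕ} {w : Fin n → ℝ}

theorem ky_inj (w : Fin n → ℝ) {u v : Wd n} (h : ky w u = ky w v) : u = v := by
  unfold ky at h
  have h1 : (wt w u, u.toList) = (wt w v, v.toList) := toLex.injective h
  exact FreeMonoid.toList.injective (Prod.mk.inj h1).2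

theorem ky_lt_iff (w : Fin n → ℝ) (u v : Wd n) :
    ky w u < ky w v ↔ wt w u < wt w v ∨ (wt w u = wt w v ∧ u.toList < v.toList) := by
  unfold ky
  exact Prod.Lex.toLex_lt_toLex

theorem ky_le_wt (w : Fin n → ℝ) {u v : Wd n} (h : ky w u ≤ ky w v) : wt w u ≤ wt w v := by
  rcases h.lt_or_eq with h1 | h1
  · rcases (ky_lt_iff w u v).1 h1 with h2 | h2
    · exact h2.le
    · exact h2.1.le
  · rw [ky_inj w h1]

theorem ky_lt_of_wt (w : Fin n → ℝ) {u v : Wd n} (h : wt w u < wt w v) : ky w u < ky w v :=
  (ky_lt_iff w u v).2 (Or.inl h)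

theorem append_lt {l l' : List (Fin n)} (h : l < l') (hl : l.length = l'.length)
    (a b : List (Fin n)) : l ++ a < l' ++ b := by
  induction l generalizing l' with
  | nil =>
    cases l' with
    | nil => exact absurd h (lt_irrefl _)
    | cons x l' => simp at hl
  | cons x l ih =>
    cases l' with
    | nil => simp at hl
    | cons y l' =>
      rw [List.cons_append, List.cons_append, List.cons_lt_cons_iff]
      rcases (List.cons_lt_cons_iff).1 h with h1 | ⟨h1, h2⟩
      · exact Or.inl h1
      · refine Or.inr ⟨h1, ih h2 ?_⟩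
        simpa using hl

theorem append_lt_left (l : List (Fin n)) {a b : List (Fin n)} (h : a < b) : l ++ a < l ++ b := by
  induction l with
  | nil => exact h
  | cons x l ih =>
    rw [List.cons_append, List.cons_append, List.cons_lt_cons_iff]
    exact Or.inr ⟨rfl, ih⟩

theorem ky_mul (hw : Gen w) {u u' v v' : Wd n} (hu : ky w u' ≤ ky w u) (hv : ky w v' ≤ ky w v)
    (hne : ¬ (u' = u ∧ v' = v)) : ky w (u' * v') < ky w (u * v) := by
  have h1 := ky_le_wt w hu
  have h2 := ky_le_wt w hv
  rw [ky_lt_iff, wt_mul, wt_mul]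
  by_cases h3 : wt w u' < wt w u ∨ wt w v' < wt w v
  · left
    rcases h3 with h3 | h3 <;> linarith
  · right
    push Not at h3
    have e1 : wt w u' = wt w u := le_antisymm h1 h3.1
    have e2 : wt w v' = wt w v := le_antisymm h2 h3.2
    refine ⟨by rw [e1, e2], ?_⟩
    rw [FreeMonoid.toList_mul, FreeMonoid.toList_mul]
    rcases hu.lt_or_eq with h4 | h4
    · rcases (ky_lt_iff w u' u).1 h4 with h5 | h5
      · exact absurd h5 (by rw [e1]; exact lt_irrefl _)
      · exact append_lt h5.2 (hw.perm _ _ e1).length_eq _ _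
    · have e3 := ky_inj w h4
      rw [e3]
      rcases hv.lt_or_eq with h6 | h6
      · rcases (ky_lt_iff w v' v).1 h6 with h5 | h5
        · exact absurd h5 (by rw [e2]; exact lt_irrefl _)
        · exact append_lt_left _ h5.2
      · exact absurd ⟨e3, ky_inj w h6⟩ hne

theorem isLw_le {f : A K n} {u : Wd n} (h : IsLw w f u) {v : Wd n} (hv : f.coeff v ≠ 0) :
    ky w v ≤ ky w u := by
  by_cases h1 : v = u
  · rw [h1]
  · exact (h.2 v (Finsupp.mem_support_iff.2 hv) h1).le

theorem isLw_mk {f : A K n} {u : Wd n} (h1 : f.coeff u ≠ 0)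
    (h2 : ∀ v, f.coeff v ≠ 0 → v ≠ u → ky w v < ky w u) : IsLw w f u :=
  ⟨Finsupp.mem_support_iff.2 h1, fun v hv hne => h2 v (Finsupp.mem_support_iff.1 hv) hne⟩

theorem isLw_ne {f : A K n} {u : Wd n} (h : IsLw w f u) : f.coeff u ≠ 0 :=
  Finsupp.mem_support_iff.1 h.1

theorem isLw_mul (hw : Gen w) {f g : A K n} {u v : Wd n} (hf : IsLw w f u) (hg : IsLw w g v) :
    IsLw w (f * g) (u * v) := by
  classical
  refine isLw_mk ?_ ?_
  · have h1 : (f * g).coeff (u * v) = f.coeff u * g.coeff v := by
      rw [MonoidAlgebra.coeff_mul]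
      unfold Finsupp.sum
      change ∑ a ∈ f.coeff.support, ∑ b ∈ g.coeff.support,
        (if a * b = u * v then f.coeff a * g.coeff b else 0) = f.coeff u * g.coeff v
      rw [Finset.sum_eq_single_of_mem u hf.1, Finset.sum_eq_single_of_mem v hg.1]
      · rw [if_pos rfl]
      · intro b hb hne
        change (if u * b = u * v then f.coeff u * g.coeff b else 0) = 0
        rw [if_neg]
        intro h2
        have h3 := ky_mul hw (le_refl (ky w u)) (isLw_le hg (Finsupp.mem_support_iff.1 hb))
          (fun h => hne h.2)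
        rw [h2] at h3
        exact lt_irrefl _ h3
      · intro a ha hne
        refine Finset.sum_eq_zero fun b hb => ?_
        change (if a * b = u * v then f.coeff a * g.coeff b else 0) = 0
        rw [if_neg]
        intro h2
        have h3 := ky_mul hw (isLw_le hf (Finsupp.mem_support_iff.1 ha))
          (isLw_le hg (Finsupp.mem_support_iff.1 hb)) (fun h => hne h.1)
        rw [h2] at h3
        exact lt_irrefl _ h3
    rw [h1]
    exact mul_ne_zero (isLw_ne hf) (isLw_ne hg)
  · intro x hx hne
    obtain ⟨a, b, ha, hb, rfl⟩ := supp_mul (wt_mul w) hx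
    refine ky_mul hw (isLw_le hf ha) (isLw_le hg hb) ?_
    rintro ⟨rfl, rfl⟩
    exact hne rfl

theorem isLw_single (u : Wd n) {c : K} (hc : c ≠ 0) : IsLw w (MonoidAlgebra.single u c : A K n) u := by
  classical
  refine isLw_mk ?_ ?_
  · rw [MonoidAlgebra.coeff_single]
    simpa using hc
  · intro v hv hne
    exfalso
    apply hv
    rw [MonoidAlgebra.coeff_single]
    exact Finsupp.single_eq_of_ne hne

theorem isLw_one : IsLw w (1 : A K n) 1 := by
  rw [MonoidAlgebra.one_def]
  exact isLw_single 1 one_ne_zero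

theorem isLw_pow (hw : Gen w) {f : A K n} {u : Wd n} (hf : IsLw w f u) (k : ℕ) :
    IsLw w (f ^ k) (u ^ k) := by
  induction k with
  | zero => rw [pow_zero, pow_zero]; exact isLw_one
  | succ k ih => rw [pow_succ, pow_succ]; exact isLw_mul hw ih hf

theorem isLw_smul {f : A K n} {u : Wd n} {c : K} (hc : c ≠ 0) (hf : IsLw w f u) :
    IsLw w (c • f) u := by
  refine isLw_mk ?_ ?_
  · rw [coeff_smul]; exact mul_ne_zero hc (isLw_ne hf)
  · intro v hv hne
    rw [coeff_smul] at hv
    exact hf.2 v (Finsupp.mem_support_iff.2 (right_ne_zero_of_mul hv)) hne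

theorem isLw_dg {f : A K n} {u : Wd n} (hf : IsLw w f u) : dg w f = wt w u := by
  have hne : f ≠ 0 := by
    rintro rfl
    have := isLw_ne hf
    rw [MonoidAlgebra.coeff_zero] at this
    exact this rfl
  obtain ⟨v, hv, he⟩ := exists_dgr (ω := wt w) hne
  unfold dg
  refine le_antisymm ?_ (le_dgr' (isLw_ne hf))
  rw [he]
  exact ky_le_wt w (isLw_le hf hv)

/-- an element dominates a sum -/
theorem isLw_sum {ι : Type*} (s : Finset ι) (F : ι → A K n) (i : ι) (hi : i ∈ s) (u : Wd n)
    (h : IsLw w (F i) u) (h2 : ∀ j ∈ s, j ≠ i → ∀ v, (F j).coeff v ≠ 0 → ky w v < ky w u) :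
    IsLw w (∑ j ∈ s, F j) u := by
  classical
  have hc : ∀ (t : Finset ι) (v : Wd n), (∑ j ∈ t, F j).coeff v = ∑ j ∈ t, (F j).coeff v := by
    intro t v
    induction t using Finset.induction_on with
    | empty => rw [Finset.sum_empty, Finset.sum_empty, MonoidAlgebra.coeff_zero]; rfl
    | insert a t ha ih => rw [Finset.sum_insert ha, Finset.sum_insert ha, coeff_add, ih]
  refine isLw_mk ?_ ?_
  · rw [hc, Finset.sum_eq_single_of_mem i hi]
    · exact isLw_ne h
    · intro j hj hne
      by_contra h3
      exact lt_irrefl _ (h2 j hj hne u h3)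
  · intro v hv hne
    rw [hc] at hv
    obtain ⟨j, hj, h3⟩ := Finset.exists_ne_zero_of_sum_ne_zero hv
    by_cases h4 : j = i
    · subst h4
      exact h.2 v (Finsupp.mem_support_iff.2 h3) hne
    · exact h2 j hj h4 v h3

theorem isLw_add {f g : A K n} {u : Wd n} (hf : IsLw w f u)
    (hg : ∀ v, g.coeff v ≠ 0 → ky w v < ky w u) : IsLw w (f + g) u := by
  have h0 : g.coeff u = 0 := by
    by_contra h
    exact lt_irrefl _ (hg u h)
  refine isLw_mk ?_ ?_
  · rw [coeff_add, h0, add_zero]; exact isLw_ne hf
  · intro v hv hne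
    rw [coeff_add] at hv
    by_cases h1 : g.coeff v = 0
    · rw [h1, add_zero] at hv
      exact hf.2 v (Finsupp.mem_support_iff.2 hv) hne
    · exact hg v h1

theorem isLw_ex {f : A K n} (hf : f ≠ 0) : ∃ u, IsLw w f u := by
  obtain ⟨u, hu, hmax⟩ := Finset.exists_max_image f.coeff.support (ky w) (supp_ne hf)
  refine ⟨u, hu, fun v hv hne => lt_of_le_of_ne (hmax v hv) fun h => hne (ky_inj w h)⟩

/-- LW -/
theorem lw (K : Type*) [Field K] {n : ℕ} (w : Fin n → ℝ) (hw : Gen w) (hd : DegFacts K w) :
    LwFacts K w where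
  ex f hf := isLw_ex hf
  ne f u h := by
    rintro rfl
    have := isLw_ne h
    rw [MonoidAlgebra.coeff_zero] at this
    exact this rfl
  uniq f u v hu hv := by
    by_contra hne
    exact lt_asymm (hu.2 v hv.1 (Ne.symm hne)) (hv.2 u hu.1 hne)
  mul f g u v := isLw_mul hw
  pow f u k h := isLw_pow hw h k
  smul f u c hc h := isLw_smul hc h
  dgw f u h := isLw_dg h
  add f g u v hf hg h := isLw_add hf fun x hx => lt_of_le_of_lt (isLw_le hg hx) h
  lt f g u hf h0 h := by
    refine isLw_add hf fun x hx => ky_lt_of_wt w ?_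
    have h1 : wt w x ≤ dg w g := le_dgr' hx
    rw [← isLw_dg hf]
    linarith
  sum s F φ hs hF hinj := by
    obtain ⟨u, hu, hmax⟩ := Finset.exists_max_image s (fun v => ky w (φ v)) hs
    refine ⟨u, hu, isLw_sum s F u hu (φ u) (hF u hu) ?_, hmax⟩
    intro j hj hne v hv
    refine lt_of_le_of_lt (isLw_le (hF j hj) hv) (lt_of_le_of_ne (hmax j hj) fun h => hne ?_)
    exact hinj j hj u hu (ky_inj w h)
  dim S _ := by
    classical
    obtain ⟨t, ht⟩ := (Submodule.fg_iff_finiteDimensional S).2 inferInstance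
    set U : Finset (Wd n) := t.biUnion fun g => g.coeff.support with hU
    have hsup : ∀ f ∈ S, ∀ u, f.coeff u ≠ 0 → u ∈ U := by
      intro f hf u
      rw [← ht] at hf
      induction hf using Submodule.span_induction with
      | mem x hx =>
        intro hu
        rw [hU, Finset.mem_biUnion]
        exact ⟨x, hx, Finsupp.mem_support_iff.2 hu⟩
      | zero =>
        intro hu
        rw [MonoidAlgebra.coeff_zero] at hu
        exact absurd rfl hu
      | add x y _ _ hx hy =>
        intro hu
        rw [coeff_add] at hu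
        by_cases h1 : x.coeff u = 0
        · rw [h1, zero_add] at hu; exact hy hu
        · exact hx h1
      | smul c x _ hx =>
        intro hu
        rw [coeff_smul] at hu
        exact hx (right_ne_zero_of_mul hu)
    have hfin : {u : Wd n | ∃ f ∈ S, IsLw w f u}.Finite := by
      refine Set.Finite.subset U.finite_toSet ?_
      rintro u ⟨f, hf, hu⟩
      exact hsup f hf u (isLw_ne hu)
    refine ⟨hfin, ?_⟩
    set L := {u : Wd n | ∃ f ∈ S, IsLw w f u} with hL
    haveI : Fintype L := hfin.fintype
    let T : S →ₗ[K] (L → K) :=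
      { toFun := fun f u => f.1.coeff u.1
        map_add' := by
          intro f g
          funext u
          exact coeff_add f.1 g.1 u.1
        map_smul' := by
          intro c f
          funext u
          exact coeff_smul c f.1 u.1 }
    have hT : Function.Injective T := by
      rw [← LinearMap.ker_eq_bot, LinearMap.ker_eq_bot']
      intro f hf
      by_contra hne
      have hne' : f.1 ≠ 0 := fun h => hne (Subtype.ext h)
      obtain ⟨u, hu⟩ := isLw_ex (w := w) hne'
      have := congrFun hf ⟨u, f.1, f.2, hu⟩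
      exact isLw_ne hu this
    have h1 := LinearMap.finrank_le_finrank_of_injective hT
    rw [Module.finrank_fintype_fun_eq_card] at h1
    rwa [Set.ncard_eq_toFinset_card', Set.toFinset_card]

end Pool.Agent.Lib.MP_e1f7e2_al.FA.H30
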