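import Pool.Agent.Lib.MP_e1f7e2_al.FA.H30.Lw

/-!
# Module WL: the degree of `G(θ^N)`
-/

set_option autoImplicit false
set_option linter.all false

open MulOpposite

namespace Pool.Agent.Lib.MP_e1f7e2_al.FA.H30

open H47.Gr

variable {K : Type*} [Field K] {w : Fin 3 → ℝ}

theorem wt_pow {n : ℕ} (w : Fin n → ℝ) (u : Wd n) (k : ℕ) : wt w (u ^ k) = k * wt w u := by
  induction k with
  | zero => rw [pow_zero, wt_one]; simp
  | succ k ih => rw [pow_succ, wt_mul, ih]; push_cast; ring

theorem sw_of (wd : Wd 3) (N : ℕ) (i : Fin 4) : sw wd N (FreeMonoid.of i) =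
    (![FreeMonoid.of 0, FreeMonoid.of 1, FreeMonoid.of 2, wd ^ N] : Fin 4 → Wd 3) i := by
  unfold sw; exact FreeMonoid.lift_eval_of _ _

theorem wt_sw (w : Fin 3 → ℝ) (wd : Wd 3) (N : ℕ) (W : Wd 4) :
    wt w (sw wd N W) = N * (W.toList.count 3 : ℕ) * wt w wd + wt (w4 w) W := by
  induction W using FreeMonoid.inductionOn' with
  | one =>
    rw [map_one, wt_one, wt_one, FreeMonoid.toList_one, List.count_nil]
    simp
  | of_mul i W ih =>
    rw [map_mul, wt_mul, wt_mul, ih, sw_of, wt_of, FreeMonoid.toList_mul, FreeMonoid.toList_of,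
      List.count_append]
    fin_cases i
    · have : wt w (FreeMonoid.of 0) = w4 w 0 := by rw [wt_of]; rfl
      simp only [Fin.zero_eta, Fin.isValue, Matrix.cons_val_zero]
      rw [this]
      simp
      ring
    · have : wt w (FreeMonoid.of 1) = w4 w 1 := by rw [wt_of]; rfl
      simp only [Fin.mk_one, Fin.isValue, Matrix.cons_val_one]
      simp
      rw [this]
      ring
    · have : wt w (FreeMonoid.of 2) = w4 w 2 := by rw [wt_of]; rfl
      simp
      rw [this]
      ring
    · have : w4 w 3 = 0 := rfl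
      simp
      rw [this, wt_pow]
      ring

theorem isLw_word (hw : Gen w) {θ : A K 3} {wd : Wd 3} (hθ : IsLw w θ wd) (N : ℕ) (W : Wd 4) :
    IsLw w (FreeMonoid.lift (![xx 0, xx 1, xx 2, θ ^ N] : Fin 4 → A K 3) W) (sw wd N W) := by
  induction W using FreeMonoid.inductionOn' with
  | one => rw [map_one, map_one]; exact isLw_one
  | of_mul i W ih =>
    rw [map_mul, map_mul]
    refine isLw_mul hw ?_ ih
    rw [sw_of, FreeMonoid.lift_eval_of]
    fin_cases i
    · exact isLw_single _ one_ne_zero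
    · exact isLw_single _ one_ne_zero
    · exact isLw_single _ one_ne_zero
    · exact isLw_pow hw hθ N

theorem sb_eq (s : A K 3) (G : A K 4) : sb s G = ∑ W ∈ G.coeff.support,
    G.coeff W • FreeMonoid.lift (![xx 0, xx 1, xx 2, s] : Fin 4 → A K 3) W := by
  unfold sb evl
  rw [MonoidAlgebra.lift_apply]
  rfl

theorem wt4_le (hw : Gen w) (W : Wd 4) : 0 ≤ wt (w4 w) W ∧
    wt (w4 w) W ≤ W.toList.length * (w 0 + w 1 + w 2) := by
  have h0 := hw.pos 0
  have h1 := hw.pos 1
  have h2 := hw.pos 2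
  induction W using FreeMonoid.inductionOn' with
  | one => rw [wt_one, FreeMonoid.toList_one]; simp
  | of_mul i W ih =>
    rw [wt_mul, wt_of, FreeMonoid.toList_mul, FreeMonoid.toList_of, List.length_append]
    have h3 : 0 ≤ w4 w i ∧ w4 w i ≤ w 0 + w 1 + w 2 := by
      fin_cases i
      · change 0 ≤ w 0 ∧ w 0 ≤ _; constructor <;> linarith
      · change 0 ≤ w 1 ∧ w 1 ≤ _; constructor <;> linarith
      · change 0 ≤ w 2 ∧ w 2 ≤ _; constructor <;> linarith
      · change (0 : ℝ) ≤ 0 ∧ 0 ≤ _; constructor <;> linarith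
    refine ⟨by linarith [ih.1], ?_⟩
    push_cast
    simp only [List.length_cons, List.length_nil]
    push_cast
    nlinarith [ih.2]

/-- WL -/
theorem wl (K : Type*) [Field K] (w : Fin 3 → ℝ) (hw : Gen w) (hl : LwFacts K w)
    (hf : WfacFacts) (hd : DegFacts K w) : WlStatement K w := by
  classical
  intro m θ wd hθ hper
  have hwd : 0 < wt w wd := by
    have h1 := wt_nonneg hw.pos wd
    rcases h1.lt_or_eq with h2 | h2
    · exact h2
    · exfalso
      have h3 := wt_eq_zero hw.pos h2.symm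
      have h4 := hper.1
      rw [h3, FreeMonoid.toList_one] at h4
      simp at h4
  set s : ℝ := w 0 + w 1 + w 2 with hs
  obtain ⟨N1, hN1⟩ := exists_nat_gt ((m : ℝ) * s / wt w wd)
  refine ⟨max N1 1, ?_⟩
  intro N hN G hG hLen
  have hN1' : N1 ≤ N := le_trans (le_max_left _ _) hN
  have hN2 : 1 ≤ N := le_trans (le_max_right _ _) hN
  have hNs : (m : ℝ) * s < N * wt w wd := by
    rw [div_lt_iff₀ hwd] at hN1
    have : (N1 : ℝ) ≤ N := by exact_mod_cast hN1'
    nlinarith
  have hsupp : G.coeff.support.Nonempty := supp_ne hG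
  -- the word `W1`
  obtain ⟨W1, hW1, hc1, he1, hmaxe⟩ : ∃ W1 ∈ G.coeff.support, W1.toList.count 3 = dt G ∧
      wt (w4 w) W1 = et w G ∧ ∀ W ∈ G.coeff.support, W.toList.count 3 = dt G →
        wt (w4 w) W ≤ et w G := by
    obtain ⟨V, hV, hVe⟩ := Finset.exists_mem_eq_sup G.coeff.support hsupp
      (fun u : Wd 4 => u.toList.count 3)
    have hcoef : ∀ u : Wd 4, (cnt 3 (dt G) G).coeff u =
        if u.toList.count 3 = dt G then G.coeff u else 0 := by
      intro u
      unfold cnt
      exact Finsupp.filter_apply _ _ _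
    have hne : cnt 3 (dt G) G ≠ 0 := by
      intro h0
      have h1 := hcoef V
      rw [h0, MonoidAlgebra.coeff_zero, if_pos (by unfold dt; exact hVe.symm)] at h1
      exact (Finsupp.mem_support_iff.1 hV) h1.symm
    obtain ⟨W1, h1, h2⟩ := exists_dgr (ω := wt (w4 w)) hne
    rw [hcoef] at h1
    have h3 : W1.toList.count 3 = dt G := by
      by_contra h
      rw [if_neg h] at h1
      exact h1 rfl
    rw [if_pos h3] at h1
    refine ⟨W1, Finsupp.mem_support_iff.2 h1, h3, ?_, ?_⟩
    · unfold et dg; exact h2.symm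
    · intro W hW hc
      unfold et dg
      refine le_dgr' ?_
      rw [hcoef, if_pos hc]
      exact Finsupp.mem_support_iff.1 hW
  have hcle : ∀ W ∈ G.coeff.support, W.toList.count 3 ≤ dt G := by
    intro W hW
    unfold dt
    exact Finset.le_sup (f := fun u : Wd 4 => u.toList.count 3) hW
  have h4 : ∀ W ∈ G.coeff.support, wt (w4 w) W ≤ m * s := by
    intro W hW
    refine (wt4_le hw W).2.trans ?_
    have h1 : (W.toList.length : ℝ) ≤ m := by exact_mod_cast hLen W hW
    have h2 : 0 ≤ s := by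
      have := hw.pos 0; have := hw.pos 1; have := hw.pos 2; rw [hs]; linarith
    exact mul_le_mul_of_nonneg_right h1 h2
  have hW1w : wt w (sw wd N W1) = N * (dt G : ℕ) * wt w wd + et w G := by
    rw [wt_sw, hc1, he1]
  have he0 : 0 ≤ et w G := by rw [← he1]; exact (wt4_le hw W1).1
  -- words of smaller weight
  have hsmall : ∀ W ∈ G.coeff.support, ¬ (W.toList.count 3 = dt G ∧ wt (w4 w) W = et w G) →
      wt w (sw wd N W) < wt w (sw wd N W1) := by
    intro W hW hne
    rw [hW1w, wt_sw]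
    by_cases hc : W.toList.count 3 = dt G
    · have h5 := hmaxe W hW hc
      have h6 : wt (w4 w) W < et w G := lt_of_le_of_ne h5 fun h => hne ⟨hc, h⟩
      rw [hc]
      linarith
    · have h5 : W.toList.count 3 + 1 ≤ dt G := lt_of_le_of_ne (hcle W hW) hc
      have h6 : ((W.toList.count 3 : ℕ) : ℝ) + 1 ≤ (dt G : ℕ) := by exact_mod_cast h5
      have h7 := h4 W hW
      have h8 : (0 : ℝ) ≤ N * wt w wd := by positivity
      nlinarith
  obtain ⟨W0, hW0, hmax⟩ := Finset.exists_max_image G.coeff.support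
    (fun W => ky w (sw wd N W)) hsupp
  have hW0p : W0.toList.count 3 = dt G ∧ wt (w4 w) W0 = et w G := by
    by_contra h
    have h1 := hsmall W0 hW0 h
    exact absurd (hmax W1 hW1) (not_le.2 (ky_lt_of_wt w h1))
  have hstrict : ∀ W ∈ G.coeff.support, W ≠ W0 → ky w (sw wd N W) < ky w (sw wd N W0) := by
    intro W hW hne
    refine lt_of_le_of_ne (hmax W hW) fun h => hne ?_
    have h1 := ky_inj w h
    have h2 : W.toList.count 3 = dt G ∧ wt (w4 w) W = et w G := by
      by_contra h3
      have h5 := hsmall W hW h3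
      rw [h1, hW1w, wt_sw, hW0p.1, hW0p.2] at h5
      exact lt_irrefl _ h5
    exact hf.inj m N wd W W0 hper hN2 (hLen W hW) (hLen W0 hW0) (by rw [h2.1, hW0p.1]) h1
  have hlead : IsLw w (sb (θ ^ N) G) (sw wd N W0) := by
    rw [sb_eq]
    refine isLw_sum _ _ W0 hW0 _ (isLw_smul (Finsupp.mem_support_iff.1 hW0)
      (isLw_word hw hθ N W0)) ?_
    intro W hW hne v hv
    exact lt_of_le_of_lt (isLw_le (isLw_smul (Finsupp.mem_support_iff.1 hW)
      (isLw_word hw hθ N W)) hv) (hstrict W hW hne)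
  refine ⟨⟨W0, hW0, hW0p.1, hW0p.2, hlead⟩, ?_⟩
  rw [isLw_dg hlead, wt_sw, hW0p.1, hW0p.2, isLw_dg hθ]

end Pool.Agent.Lib.MP_e1f7e2_al.FA.H30
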